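import Mathlib
import Pool.Agent.Results.MP_c59389_nt.AlmostAllInvariants

/-!
# An explicit bound of Shafarevich type, linear in `log N_S`, for the Weil restrictions of all twists
# of the elliptic curves with almost all modular invariants, over all number fields, and for their
# products

Let `A` be an abelian scheme over `S = Spec ℤ[1 / N]`. We consider the abelian schemes whose generic
fibre is a Weil restriction `Res_{L/ℚ} E`, where `L` is ANY number field of degree `n` and `E` is ANY
elliptic curve over `L`, and the products of such schemes. As `A` has good reduction outside `N`, so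
has `E` (Néron-Ogg-Shafarevich; also `N_A = N(f_E) D_L ^ 2`, Milne). Here `h_F(A) = n h_F(E)`
(stable heights: over the algebraic closure `A` is the product of the conjugates of `E`), and
`12 n h_F(E)` is the sum of `log max(|j|_v, 1)` over the finite places `v` of `L` and of the
archimedean terms.

All constants are absolute: they depend neither on `L` nor on `n`. For every number field `L`, of
degree `n`, and for all `j ∈ L` of height at most `B` outside a small set of invariants, one has
`h_F(A) ≤ ((1 + δ) / 12) n log N + C n`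
for ALL elliptic curves `E` over `L` of invariant `j` (all twists) and ALL `N` such that `E` has
good reduction outside `N`.
-/

set_option autoImplicit false
set_option linter.unusedSectionVars false

namespace Pool.Agent.Results.MP_07b2d0_nt.AlmostAllWeilRestrictions

open NumberField IsDedekindDomain

/-- the modular invariant `j(τ) = E₄(τ) ^ 3 / Δ(τ) = 1 / q + 744 + ⋯` -/
noncomputable def jInv (τ : UpperHalfPlane) : ℂ :=
  ModularForm.E₄ τ ^ 3 / ModularForm.discriminant τ

/-- the archimedean term `- log (|Δ(τ)| (Im τ) ^ 6)` of the Faltings height -/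
noncomputable def arch (τ : UpperHalfPlane) : ℝ :=
  -Real.log (‖ModularForm.discriminant τ‖ * τ.im ^ 6)

/-- the points `τ w` have modular invariant `j` -/
def IsPeriod {L : Type} [Field L] [NumberField L] (j : L)
    (τ : InfinitePlace L → UpperHalfPlane) : Prop := ∀ w, jInv (τ w) = w.embedding j

/-- the stable Faltings height of the Weil restriction `A = Res_{L/ℚ} E` of an elliptic curve `E`
over `L` of invariant `j`, where the points `τ w` have invariant `j` (up to an absolute multiple of
`[L : ℚ] = dim A` which depends on the normalisation of the metric only): `12 h_F(A)` is the sum of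
`log max(|j|_v, 1)` over the finite places `v` of `L`, the stable discriminant of `E`, and of the
archimedean terms -/
noncomputable def stableHeight {L : Type} [Field L] [NumberField L] (j : L)
    (τ : InfinitePlace L → UpperHalfPlane) : ℝ :=
  (∑ᶠ v : HeightOneSpectrum (𝓞 L), Real.log (max (FinitePlace.mk v j) 1) +
    ∑ w : InfinitePlace L, (w.mult : ℝ) * arch (τ w)) / 12

/-- good reduction at `v`: some Weierstrass equation over `L` of the curve is integral at `v` and
has a discriminant which is a unit at `v` -/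
def GoodAt {L : Type} [Field L] [NumberField L] (v : HeightOneSpectrum (𝓞 L))
    (E : WeierstrassCurve L) : Prop :=
  ∃ C : WeierstrassCurve.VariableChange L,
    v.valuation L (C • E).a₁ ≤ 1 ∧ v.valuation L (C • E).a₂ ≤ 1 ∧ v.valuation L (C • E).a₃ ≤ 1 ∧
    v.valuation L (C • E).a₄ ≤ 1 ∧ v.valuation L (C • E).a₆ ≤ 1 ∧ v.valuation L (C • E).Δ = 1

/-- good reduction at all primes of `L` which do not divide `N` -/
def GoodOutside {L : Type} [Field L] [NumberField L] (N : ℕ) (E : WeierstrassCurve L) : Prop :=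
  ∀ v : HeightOneSpectrum (𝓞 L), (N : 𝓞 L) ∉ v.asIdeal → GoodAt v E

/-- the explicit bound, with parameters `δ` and `C`, for the Weil restrictions `A = Res_{L/ℚ} E` of
all elliptic curves `E` over `L` of invariant `j`: `h_F(A) ≤ ((1 + δ) / 12) n log N + C n`, where
`n = [L : ℚ] = dim A`, whenever `E` has good reduction outside `N`, in particular whenever `A`
extends to an abelian scheme over `Spec ℤ[1 / N]` -/
def Bound (δ C : ℝ) {L : Type} [Field L] [NumberField L] (j : L) : Prop :=
  ∀ (E : WeierstrassCurve L) (τ : InfinitePlace L → UpperHalfPlane) (N : ℕ), N ≠ 0 → E.Δ ≠ 0 →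
    E.c₄ ^ 3 / E.Δ = j → IsPeriod j τ → GoodOutside N E →
    stableHeight j τ ≤ (1 + δ) / 12 * Module.finrank ℚ L * Real.log N +
      C * Module.finrank ℚ L

section Fields

variable (L : Type) [Field L] [NumberField L]

/-- the root discriminant `δ_L` -/
noncomputable def rootDisc : ℝ :=
  |(NumberField.discr L : ℝ)| ^ (1 / (Module.finrank ℚ L : ℝ))

/-- the elements of absolute height at most `B` -/
def Inv (B : ℝ) : Set L := {j | Height.logHeight₁ j ≤ Module.finrank ℚ L * Real.log B}

/-- those for which the explicit bound fails -/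
def Bad (δ C B : ℝ) : Set L := {j ∈ Inv L B | ¬ Bound δ C j}

end Fields

section Aux

open Pool.Agent.Y733.UD Pool.Agent.Y733.LS Pool.Agent.W223.AK Pool.Agent.H691R3
  Pool.Agent.Y733.FF Pool.Agent.Results.MP_c59389_nt

variable {K : Type} [Field K] [NumberField K]

/-- the product of the norms of the primes which divide `N` is at most `N ^ n` -/
theorem prod_le {N : ℕ} (hN : N ≠ 0) (T : Finset (Pr K)) (hT : ∀ v ∈ T, (N : 𝓞 K) ∈ v.asIdeal) :
    ∑ v ∈ T, Real.log (Nv v) ≤ Module.finrank ℚ K * Real.log N := by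
  classical
  have hinj : Function.Injective fun v : Pr K => v.asIdeal := fun v w h =>
    HeightOneSpectrum.ext h
  have h1 : ∏ I ∈ T.image (fun v : Pr K => v.asIdeal), I ∣ Ideal.span {(N : 𝓞 K)} := by
    apply Finset.prod_primes_dvd
    · intro I hI
      obtain ⟨v, _, rfl⟩ := Finset.mem_image.1 hI
      exact v.prime
    · intro I hI
      obtain ⟨v, hv, rfl⟩ := Finset.mem_image.1 hI
      rw [Ideal.dvd_span_singleton]
      exact hT v hv
  rw [Finset.prod_image (fun v _ w _ h => hinj h)] at h1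
  have h2 := map_dvd (Ideal.absNorm (S := 𝓞 K)) h1
  rw [map_prod, Ideal.absNorm_span_natCast, NumberField.RingOfIntegers.rank] at h2
  have h3 : ∏ v ∈ T, Ideal.absNorm v.asIdeal ≤ N ^ Module.finrank ℚ K :=
    Nat.le_of_dvd (pow_pos (Nat.pos_of_ne_zero hN) _) h2
  have h4 : (∏ v ∈ T, Nv v : ℝ) ≤ (N : ℝ) ^ Module.finrank ℚ K := by
    unfold Nv
    exact_mod_cast h3
  have h5 : 0 < ∏ v ∈ T, Nv v := Finset.prod_pos fun v _ => lt_trans one_pos (Nv_one_lt v)
  rw [← Real.log_prod (fun v _ => (lt_trans one_pos (Nv_one_lt v)).ne'), ← Real.log_pow]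
  exact Real.log_le_log h5 h4

theorem bad_le (E : WeierstrassCurve K) (hE : E.Δ ≠ 0) {N : ℕ} (hN : N ≠ 0)
    (h : GoodOutside N E) :
    Real.log (multN E) + Real.log (addN E) / 2 ≤ Module.finrank ℚ K * Real.log N := by
  classical
  have hI : Ideal.span {(N : 𝓞 K)} ≠ 0 := by
    rw [Ne, Ideal.zero_eq_bot, Ideal.span_singleton_eq_bot]
    exact_mod_cast hN
  have hfin : {v : Pr K | (N : 𝓞 K) ∈ v.asIdeal}.Finite := by
    refine (Ideal.finite_factors hI).subset fun v hv => ?_
    show v.asIdeal ∣ _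
    rw [Ideal.dvd_span_singleton]
    exact hv
  have s4 := supp_mw E hE
  have s5 := supp_aw E hE
  set f : Pr K → ℝ := fun v => if v ∈ hfin.toFinset then Real.log (Nv v) else 0 with hf
  have s6 : (Function.support f).Finite := by
    refine hfin.subset fun v hv => ?_
    by_contra hc
    apply hv
    rw [hf]
    simp only
    rw [if_neg]
    rwa [Set.Finite.mem_toFinset]
  have key : ∑ᶠ v : Pr K, (mw v E + aw v E) ≤ ∑ᶠ v : Pr K, f v := by
    refine finsum_le_finsum' (supp_add s4 s5) s6 fun v => ?_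
    have hNv : 0 < Real.log (Nv v) := log_Nv_pos v
    by_cases hv : (N : 𝓞 K) ∈ v.asIdeal
    · have e1 : f v = Real.log (Nv v) := by
        rw [hf]
        simp only
        rw [if_pos]
        rwa [Set.Finite.mem_toFinset]
      rw [e1]
      unfold mw aw
      split_ifs with h1 h2 h3
      · exact absurd h1.2.1 h2.1
      · linarith
      · linarith
      · linarith
    · have e1 : f v = 0 := by
        rw [hf]
        simp only
        rw [if_neg]
        rwa [Set.Finite.mem_toFinset]
      have hg : Pool.Agent.TH876.FH.GoodAt v E := h v hv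
      rw [e1]
      unfold mw aw
      rw [if_neg (fun h1 => h1.1 hg), if_neg (fun h1 => h1.1 (semi_of_good hg))]
      linarith
  have e3 : ∑ᶠ v : Pr K, f v = ∑ v ∈ hfin.toFinset, Real.log (Nv v) := by
    rw [finsum_eq_sum_of_support_subset (s := hfin.toFinset)]
    · refine Finset.sum_congr rfl fun v hv => ?_
      rw [hf]
      simp only
      rw [if_pos hv]
    · intro v hv
      by_contra hc
      apply hv
      rw [hf]
      simp only
      rw [if_neg]
      exact hc
  rw [sum_add s4 s5, e3] at key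
  have h9 := prod_le hN hfin.toFinset fun v hv => by
    rw [Set.Finite.mem_toFinset] at hv
    exact hv
  rw [log_multN E hE, log_addN E hE]
  linarith

/-- the explicit bound follows from the sharp form of Frey's inequality -/
theorem bound_of_frey {δ C : ℝ} (h0 : 0 ≤ δ) {j : K}
    (h : AlmostAllInvariants.FreySharp δ C j) : Bound δ C j := by
  intro E τ N hN hE hj hτ hg
  have h1 : stableHeight j τ ≤ (1 + δ) / 12 * (Real.log (multN E) + Real.log (addN E) / 2) +
      C * Module.finrank ℚ K := h E τ hE hj hτ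
  have h2 := bad_le E hE hN hg
  have h3 := mul_le_mul_of_nonneg_left h2 (by positivity : 0 ≤ (1 + δ) / 12)
  rw [mul_assoc ((1 + δ) / 12)]
  linarith

theorem bad_sub {δ C B : ℝ} (h0 : 0 ≤ δ) :
    Bad K δ C B ⊆ AlmostAllInvariants.ExcSharp K δ C B := fun x hx =>
  ⟨hx.1, fun hcon => hx.2 (bound_of_frey h0 hcon)⟩

theorem card_le {δ C B : ℝ} (h0 : 0 ≤ δ) :
    ((Bad K δ C B).ncard : ℝ) ≤ ((AlmostAllInvariants.ExcSharp K δ C B).ncard : ℝ) := by
  have hfin : (AlmostAllInvariants.ExcSharp K δ C B).Finite :=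
    (AlmostAllInvariants.fin_Inv B).subset fun _ hx => hx.1
  exact_mod_cast Set.ncard_le_ncard (bad_sub h0) hfin

theorem main : ∃ C : ℝ, 0 < C ∧
    (∀ δ ε : ℝ, 0 ≤ δ → 0 < ε → ∃ M : ℝ, 0 < M ∧
      ∀ (L : Type) [Field L] [NumberField L] (B : ℝ), 1 ≤ B → (Inv L B).Finite ∧
        ((Bad L δ C B).ncard : ℝ) ≤
          (M * B ^ (2 - δ / (2 * (1 + δ)) + ε)) ^ Module.finrank ℚ L ∧
        ((Bad L δ C B).ncard : ℝ) ≤
          (M * B ^ (-(δ / (2 * (1 + δ))) + ε) * rootDisc L ^ (2 + ε)) ^ Module.finrank ℚ L *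
            ((Inv L B).ncard : ℝ)) ∧
    (∃ B₀ : ℝ, 0 < B₀ ∧
      ∀ (L : Type) [Field L] [NumberField L] (B : ℝ), B₀ * rootDisc L ^ 30 ≤ B →
        ((Bad L 5 C B).ncard : ℝ) ≤
          (B ^ (-(1 / 3) : ℝ)) ^ Module.finrank ℚ L * ((Inv L B).ncard : ℝ)) := by
  obtain ⟨C, hC, h⟩ := AlmostAllInvariants.exc_log
  refine ⟨C, hC, ?_, ?_⟩
  · intro δ ε h0 hε
    obtain ⟨A1, hA1, h1⟩ := h δ ε h0 hε
    obtain ⟨A2, hA2, h2⟩ := AlmostAllInvariants.prop_log
      (S := fun L _ _ B => AlmostAllInvariants.ExcSharp L δ C B)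
      (fun L _ _ B x hx => hx.1) (AlmostAllInvariants.theta_le h0) hε
      (h δ (ε / 2) h0 (half_pos hε))
    refine ⟨Real.exp (A1 + A2), Real.exp_pos _, ?_⟩
    intro L _ _ B hB
    have hB0 : 0 < B := by linarith
    have hn := AlmostAllInvariants.n_pos (K := L)
    have hrd : rootDisc L = Real.exp (rd L) := AlmostAllInvariants.rootDisc_eq
    have hδ : 0 < rootDisc L := by rw [hrd]; exact Real.exp_pos _
    refine ⟨AlmostAllInvariants.fin_Inv B, (card_le h0).trans ((h1 L B hB).trans ?_),
      (card_le h0).trans ((h2 L B hB).trans ?_)⟩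
    · rw [Real.rpow_def_of_pos hB0, ← Real.exp_add, ← Real.exp_nat_mul]
      apply Real.exp_le_exp.2
      apply mul_le_mul_of_nonneg_left _ hn.le
      linarith
    · rw [AlmostAllInvariants.pow_form (Real.exp_pos _) hB0 hδ, Real.log_exp, hrd, Real.log_exp]
      refine mul_le_mul_of_nonneg_right ?_ (Nat.cast_nonneg _)
      apply Real.exp_le_exp.2
      apply mul_le_mul_of_nonneg_left _ hn.le
      linarith
  · obtain ⟨A, hA, h2⟩ := AlmostAllInvariants.prop_log
      (S := fun L _ _ B => AlmostAllInvariants.ExcSharp L 5 C B) (ε := 1 / 100)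
      (fun L _ _ B x hx => hx.1) (AlmostAllInvariants.theta_le (by norm_num)) (by norm_num)
      (h 5 (1 / 100 / 2) (by norm_num) (by norm_num))
    refine ⟨Real.exp (15 * A), Real.exp_pos _, ?_⟩
    intro L _ _ B hB
    have hn := AlmostAllInvariants.n_pos (K := L)
    have hrd := rd_nonneg L
    have e0 : rootDisc L = Real.exp (rd L) := AlmostAllInvariants.rootDisc_eq
    have e18 : rootDisc L ^ 30 = Real.exp (30 * rd L) := by
      rw [e0, ← Real.exp_nat_mul]
      norm_num
    rw [e18, ← Real.exp_add] at hB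
    have hB0 : 0 < B := lt_of_lt_of_le (Real.exp_pos _) hB
    have hlB : 15 * A + 30 * rd L ≤ Real.log B := by
      rwa [Real.le_log_iff_exp_le hB0]
    have hB1 : 1 ≤ B := le_trans (Real.one_le_exp (by positivity)) hB
    refine (card_le (by norm_num)).trans
      ((h2 L B hB1).trans (mul_le_mul_of_nonneg_right ?_ (Nat.cast_nonneg _)))
    rw [Real.rpow_def_of_pos hB0, ← Real.exp_nat_mul]
    apply Real.exp_le_exp.2
    apply mul_le_mul_of_nonneg_left _ hn.le
    have e2 : (5 : ℝ) / (2 * (1 + 5)) = 5 / 12 := by norm_num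
    rw [e2]
    nlinarith

end Aux

/-- products of powers of Weil restrictions -/
theorem products {δ C : ℝ} {r : ℕ} (L : Fin r → Type) [∀ i, Field (L i)] [∀ i, NumberField (L i)]
    (j : ∀ i, L i) (E : ∀ i, WeierstrassCurve (L i))
    (τ : ∀ i, InfinitePlace (L i) → UpperHalfPlane) (m : Fin r → ℕ) (N : ℕ) (hN : N ≠ 0)
    (h : ∀ i, Bound δ C (j i) ∧ (E i).Δ ≠ 0 ∧ (E i).c₄ ^ 3 / (E i).Δ = j i ∧
      IsPeriod (j i) (τ i) ∧ GoodOutside N (E i)) :
    ∑ i, (m i : ℝ) * stableHeight (j i) (τ i) ≤
      (1 + δ) / 12 * (∑ i, m i * Module.finrank ℚ (L i) : ℕ) * Real.log N +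
        C * (∑ i, m i * Module.finrank ℚ (L i) : ℕ) := by
  have h1 : ∀ i, (m i : ℝ) * stableHeight (j i) (τ i) ≤
      (m i : ℝ) * ((1 + δ) / 12 * Module.finrank ℚ (L i) * Real.log N +
      C * Module.finrank ℚ (L i)) := fun i =>
    mul_le_mul_of_nonneg_left ((h i).1 (E i) (τ i) N hN (h i).2.1 (h i).2.2.1 (h i).2.2.2.1
      (h i).2.2.2.2) (Nat.cast_nonneg _)
  refine (Finset.sum_le_sum fun i _ => h1 i).trans (le_of_eq ?_)
  push_cast
  rw [Finset.mul_sum, Finset.mul_sum, Finset.sum_mul, ← Finset.sum_add_distrib]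
  refine Finset.sum_congr rfl fun i _ => ?_
  ring

/-- **An explicit Shafarevich bound, linear in `log N_S`, for almost all modular invariants, over
all number fields.** There is an absolute constant `C > 0` (independent of the number field `L`, of
its degree `n` and of `N`) such that the following holds, where `A = Res_{L/ℚ} E`.
(1) For `δ ≥ 0` and `ε > 0`, the bound `h_F(A) ≤ ((1 + δ) / 12) n log N + C n` for all
elliptic curves `E` over `L` of invariant `j` with good reduction outside `N` (in particular whenever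
`A` extends to an abelian scheme over `Spec ℤ[1 / N]`) holds for all `j ∈ L` of height at most `B`
except at most `(M B ^ (2 - δ / (2 (1 + δ)) + ε)) ^ n` of them, a proportion of at most
`(M B ^ (-δ / (2 (1 + δ)) + ε) δ_L ^ (2 + ε)) ^ n`.
(2) `h_F(A) ≤ (1 / 2) n log N + C n` for all `j ∈ L` of height at most `B` except a proportion
`B ^ (-n / 3)`, over every `L` and for `B ≥ B₀ δ_L ^ 30`.
(3) For all products `A = ∏ (Res_{L_i/ℚ} E_i) ^ (m_i)` of dimension `g = ∑ m_i [L_i : ℚ]` with good
reduction outside `N` and invariants `j_i` as in (1), `h_F(A) ≤ ((1 + δ) / 12) g log N + C g`.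
(4) The number of all `j ∈ L` of height at most `B` is at least
`(B ^ (2 - ε) / (M δ_L ^ (2 + ε))) ^ n` for `B ≥ 16 √δ_L`. -/
theorem result :
    (∃ C : ℝ, 0 < C ∧
      (∀ δ ε : ℝ, 0 ≤ δ → 0 < ε → ∃ M : ℝ, 0 < M ∧
        ∀ (L : Type) [Field L] [NumberField L] (B : ℝ), 1 ≤ B → (Inv L B).Finite ∧
          ((Bad L δ C B).ncard : ℝ) ≤
            (M * B ^ (2 - δ / (2 * (1 + δ)) + ε)) ^ Module.finrank ℚ L ∧
          ((Bad L δ C B).ncard : ℝ) ≤
            (M * B ^ (-(δ / (2 * (1 + δ))) + ε) * rootDisc L ^ (2 + ε)) ^ Module.finrank ℚ L *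
              ((Inv L B).ncard : ℝ)) ∧
      (∃ B₀ : ℝ, 0 < B₀ ∧
        ∀ (L : Type) [Field L] [NumberField L] (B : ℝ), B₀ * rootDisc L ^ 30 ≤ B →
          ((Bad L 5 C B).ncard : ℝ) ≤
            (B ^ (-(1 / 3) : ℝ)) ^ Module.finrank ℚ L * ((Inv L B).ncard : ℝ)) ∧
      (∀ (δ : ℝ) (r : ℕ) (L : Fin r → Type) [∀ i, Field (L i)] [∀ i, NumberField (L i)]
        (j : ∀ i, L i) (E : ∀ i, WeierstrassCurve (L i))
        (τ : ∀ i, InfinitePlace (L i) → UpperHalfPlane) (m : Fin r → ℕ) (N : ℕ), N ≠ 0 →
        (∀ i, Bound δ C (j i) ∧ (E i).Δ ≠ 0 ∧ (E i).c₄ ^ 3 / (E i).Δ = j i ∧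
          IsPeriod (j i) (τ i) ∧ GoodOutside N (E i)) →
        ∑ i, (m i : ℝ) * stableHeight (j i) (τ i) ≤
          (1 + δ) / 12 * (∑ i, m i * Module.finrank ℚ (L i) : ℕ) * Real.log N +
            C * (∑ i, m i * Module.finrank ℚ (L i) : ℕ))) ∧
    (∀ ε : ℝ, 0 < ε → ∃ M : ℝ, 0 < M ∧
      ∀ (L : Type) [Field L] [NumberField L] (B : ℝ), 16 * √(rootDisc L) ≤ B →
        (M⁻¹ * B ^ (2 - ε) * rootDisc L ^ (-(2 + ε))) ^ Module.finrank ℚ L ≤
          ((Inv L B).ncard : ℝ)) := by
  obtain ⟨C, hC, h1, h2⟩ := main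
  exact ⟨⟨C, hC, h1, h2, fun δ r L _ _ j E τ m N hN h => products L j E τ m N hN h⟩,
    Pool.Agent.Results.MP_c59389_nt.AlmostAllInvariants.part_three⟩

end Pool.Agent.Results.MP_07b2d0_nt.AlmostAllWeilRestrictions
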